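import Mathlib
import Pool.Agent.Helper58_MOO.Stmts

/-!
REA: amalgamation of conditions of the forcing `RE`.
-/

open Cardinal
open Pool.Agent.Helper69_LOTS

namespace Pool.Agent.MOO.H98

open Node

theorem prec_trans {c : Set (Set Om) → Set Om} {N N₁ N₂ : Set (Set Om)} (h : Prec c N N₁)
    (h' : Prec c N₁ N₂) : Prec c N N₂ :=
  ⟨h.1.trans h'.1, h'.1 h.2.1, h.2.2.trans h'.2.2⟩

theorem rea : ReaStmt := by
  classical
  intro x y ln c r r' N hN hlow hH hS hf' hf hxy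
  have hmod : ∀ N₁, (N₁ ∈ r.H ∨ N₁ ∈ r.S) → (N₁ ∈ r'.H ∨ N₁ ∈ r'.S) ∨ N₁ = N ∨ Prec c N N₁ := by
    intro N₁ h
    rcases h with h | h
    · rcases hH N₁ h with h1 | h1 | h1
      · exact Or.inl (Or.inl h1)
      · exact Or.inr (Or.inl h1)
      · exact Or.inr (Or.inr h1)
    · rcases hS N₁ h with h1 | h1 | h1
      · exact Or.inl (Or.inr h1)
      · exact Or.inr (Or.inl h1)
      · exact Or.inr (Or.inr h1)
  have hlift : ∀ N₁, (N₁ ∈ r.H ∪ r'.H ∨ N₁ ∈ r.S ∪ r'.S) →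
      (N₁ ∈ r.H ∨ N₁ ∈ r.S) ∨ (N₁ ∈ r'.H ∨ N₁ ∈ r'.S) := by
    intro N₁ h
    rw [Finset.mem_union, Finset.mem_union] at h
    tauto
  have hin : ∀ N₁, (N₁ ∈ r.H ∨ N₁ ∈ r.S) → (N₁ ∈ r.H ∪ r'.H ∨ N₁ ∈ r.S ∪ r'.S) := by
    intro N₁ h
    rw [Finset.mem_union, Finset.mem_union]
    tauto
  have hin' : ∀ N₁, (N₁ ∈ r'.H ∨ N₁ ∈ r'.S) → (N₁ ∈ r.H ∪ r'.H ∨ N₁ ∈ r.S ∪ r'.S) := by
    intro N₁ h
    rw [Finset.mem_union, Finset.mem_union]
    tauto
  have hmix : ∀ N₁ N₂, (N₁ ∈ r'.H ∨ N₁ ∈ r'.S) → (N₂ ∈ r.H ∨ N₂ ∈ r.S) → N₁ ≠ N₂ →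
      Prec c N₁ N₂ ∨ Prec c N₂ N₁ := by
    intro N₁ N₂ h1 h2 hne
    rcases hmod N₂ h2 with h3 | h3 | h3
    · exact r'.ch N₁ N₂ h1 h3 hne
    · exact Or.inl (h3 ▸ hlow N₁ h1)
    · exact Or.inl (prec_trans (hlow N₁ h1) h3)
  refine ⟨⟨r.f ∪ r'.f, r.H ∪ r'.H, r.S ∪ r'.S, ?_, ?_, ?_, ?_, ?_, ?_, ?_, ?_⟩,
    ⟨Finset.subset_union_right, Finset.subset_union_right, Finset.subset_union_right⟩,
    ⟨Finset.subset_union_left, Finset.subset_union_left, Finset.subset_union_left⟩⟩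
  · intro N₁ h
    rcases Finset.mem_union.1 h with h | h
    · exact r.hH N₁ h
    · exact r'.hH N₁ h
  · intro N₁ h
    rcases Finset.mem_union.1 h with h | h
    · exact r.hS N₁ h
    · exact r'.hS N₁ h
  · intro N₁ N₂ h1 h2 hne
    rcases hlift N₁ h1 with h1 | h1 <;> rcases hlift N₂ h2 with h2 | h2
    · exact r.ch N₁ N₂ h1 h2 hne
    · exact (hmix N₂ N₁ h2 h1 (Ne.symm hne)).symm
    · exact hmix N₁ N₂ h1 h2 hne
    · exact r'.ch N₁ N₂ h1 h2 hne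
  · -- functionality
    have key : ∀ p ∈ r.f, ∀ q ∈ r'.f, p.1 = q.1 → p = q := by
      intro p hp q hq h
      rcases hf p hp with h1 | h1
      · exact r'.fn p h1 q hq h
      · exact absurd (hf' q hq).1 (not_lt.2 (h ▸ h1.1))
    intro p hp q hq h
    rcases Finset.mem_union.1 hp with hp | hp <;> rcases Finset.mem_union.1 hq with hq | hq
    · exact r.fn p hp q hq h
    · exact key p hp q hq h
    · exact (key q hq p hp h.symm).symm
    · exact r'.fn p hp q hq h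
  · -- monotonicity
    intro p hp q hq h
    rcases Finset.mem_union.1 hp with hp | hp <;> rcases Finset.mem_union.1 hq with hq | hq
    · exact r.inc p hp q hq h
    · rcases hf p hp with h1 | h1
      · exact r'.inc p h1 q hq h
      · exact (hxy p hp h1.1 q hq).1 h
    · rcases hf q hq with h1 | h1
      · exact r'.inc p hp q h1 h
      · exact (hxy q hq h1.1 p hp).2 h
    · exact r'.inc p hp q hq h
  · -- r1
    intro p hp N₁ h1
    rcases Finset.mem_union.1 hp with hp | hp <;> rcases Finset.mem_union.1 h1 with h1 | h1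
    · exact r.r1 p hp N₁ h1
    · rcases hf p hp with h2 | h2
      · exact r'.r1 p h2 N₁ h1
      · have h3 := (hlow N₁ (Or.inl h1)).2.2
        constructor
        · intro h4
          exact absurd (h4.trans h3) (not_lt.2 h2.1)
        · intro h4
          exact absurd (h4.trans h3) (not_lt.2 h2.2)
    · rcases hH N₁ h1 with h2 | h2 | h2
      · exact r'.r1 p hp N₁ h2
      · rw [h2]
        exact iff_of_true (hf' p hp).1 (hf' p hp).2
      · exact iff_of_true ((hf' p hp).1.trans h2.2.2) ((hf' p hp).2.trans h2.2.2)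
    · exact r'.r1 p hp N₁ h1
  · -- r2
    intro p hp
    rcases Finset.mem_union.1 hp with hp | hp
    · obtain ⟨N₁, h1, h2⟩ := r.r2 p hp
      exact ⟨N₁, hin N₁ h1, h2⟩
    · obtain ⟨N₁, h1, h2⟩ := r'.r2 p hp
      exact ⟨N₁, hin' N₁ h1, h2⟩
  · -- r3
    have key : ∀ p ∈ r.f, ∀ q ∈ r'.f, p ≠ q → ∃ N₁, (N₁ ∈ r.H ∪ r'.H ∨ N₁ ∈ r.S ∪ r'.S) ∧
        ((p.2 < dlt N₁ ∧ dlt N₁ ≤ q.2) ∨ (q.2 < dlt N₁ ∧ dlt N₁ ≤ p.2)) := by
      intro p hp q hq hne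
      rcases hf p hp with h1 | h1
      · obtain ⟨N₁, h2, h3⟩ := r'.r3 p h1 q hq hne
        exact ⟨N₁, hin' N₁ h2, h3⟩
      · exact ⟨N, hin N (Or.inl hN), Or.inr ⟨(hf' q hq).2, h1.2⟩⟩
    intro p hp q hq hne
    rcases Finset.mem_union.1 hp with hp | hp <;> rcases Finset.mem_union.1 hq with hq | hq
    · obtain ⟨N₁, h2, h3⟩ := r.r3 p hp q hq hne
      exact ⟨N₁, hin N₁ h2, h3⟩
    · exact key p hp q hq hne
    · obtain ⟨N₁, h2, h3⟩ := key q hq p hp (Ne.symm hne)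
      exact ⟨N₁, h2, h3.symm⟩
    · obtain ⟨N₁, h2, h3⟩ := r'.r3 p hp q hq hne
      exact ⟨N₁, hin' N₁ h2, h3⟩

end Pool.Agent.MOO.H98
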