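import Mathlib
import Pool.Agent.Helper58_MOO.Stmts

/-!
SDF: the list of trees deciding the family `F`.
-/

open Cardinal
open Pool.Agent.Helper69_LOTS

namespace Pool.Agent.MOO.H98

open Node

theorem boolOm : Nonempty (Bool × Om ≃ Om) := by
  refine Cardinal.eq.1 ?_
  rw [Cardinal.mk_prod, Cardinal.lift_id, Cardinal.lift_id, mk_Om]
  have h2 : #Bool = 2 := by simp
  rw [h2]
  exact Cardinal.mul_eq_right (aleph0_le_aleph 1)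
    ((Cardinal.natCast_lt_aleph0 (n := 2)).le.trans (aleph0_le_aleph 1)) two_ne_zero

theorem sdf (hsdp : SdpStmt) : SdfStmt := by
  classical
  intro hPFA T F hT hF hher
  obtain ⟨hne, hprop, hdns⟩ := hsdp T F hT hF hher
  obtain ⟨G, -, -, hdir, hGD⟩ := hPFA (SD T F) hprop (fun γ => {p | γ ≤ p.len}) hdns
  choose P hPG hPlen using hGD
  obtain ⟨dl, hdl⟩ : ∃ dl : Om → Om, dl = fun ξ => (P ξ).dl ξ := ⟨_, rfl⟩
  obtain ⟨N, hN⟩ : ∃ N : Om → Set (Set Node), N = fun ξ => (P ξ).N ξ := ⟨_, rfl⟩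
  have hag : ∀ η ξ, ξ ≤ η → (P η).dl ξ = dl ξ ∧ (P η).N ξ = N ξ := by
    intro η ξ h
    obtain ⟨r, hr, h1, h2⟩ := hdir (P η) (hPG η) (P ξ) (hPG ξ)
    have h3 := h1.2 ξ (h.trans (hPlen η))
    have h4 := h2.2 ξ (hPlen ξ)
    subst hdl hN
    exact ⟨h3.1.symm.trans h4.1, h3.2.symm.trans h4.2⟩
  have hdmono : StrictMono dl := by
    intro ξ η h
    have h1 := (P η).dmono ξ η h (hPlen η)
    rwa [(hag η ξ h.le).1, (hag η η le_rfl).1] at h1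
  have hdcont : ∀ ν, IsLim ν → ∀ α, α < dl ν → ∃ ξ, ξ < ν ∧ α < dl ξ := by
    intro ν hν α hα
    rw [← (hag ν ν le_rfl).1] at hα
    obtain ⟨ξ, h1, h2⟩ := (P ν).dcont ν (hPlen ν) hν α hα
    rw [(hag ν ξ h1.le).1] at h2
    exact ⟨ξ, h1, h2⟩
  have hcnt : ∀ ξ, (N ξ).Countable := by
    intro ξ
    rw [← (hag ξ ξ le_rfl).2]
    exact (P ξ).cnt ξ (hPlen ξ)
  have hncont : ∀ ν, IsLim ν → ∀ B ∈ N ν, ∃ ξ, ξ < ν ∧ B ∈ N ξ := by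
    intro ν hν B hB
    rw [← (hag ν ν le_rfl).2] at hB
    obtain ⟨ξ, h1, h2⟩ := (P ν).ncont ν (hPlen ν) hν B hB
    rw [(hag ν ξ h1.le).2] at h2
    exact ⟨ξ, h1, h2⟩
  -- the two sides
  obtain ⟨sd, hsd⟩ : ∃ sd : Bool → Set Node → Prop, sd = fun b A => if b then F A else Prp T F A :=
    ⟨_, rfl⟩
  have hsdt : ∀ A, sd true A ↔ F A := by intro A; rw [hsd]; simp
  have hsdf : ∀ A, sd false A ↔ Prp T F A := by intro A; rw [hsd]; simp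
  have hsdtree : ∀ b A, sd b A → IsTree A := by
    intro b A h
    cases b
    · exact ((hsdf A).1 h).2.1
    · exact (hF A ((hsdt A).1 h)).2.1
  have hside : ∀ ν, IsLim ν → ∀ t ∈ T, t.ht = dl ν → ∃ b : Bool, ∃ ξ₀, ξ₀ < ν ∧
      ∀ ξ, ξ₀ < ξ → ξ < ν → ∃ B ∈ N ξ, sd b B ∧ t.res (dl ξ) ∈ B := by
    intro ν hν t ht h1
    rw [← (hag ν ν le_rfl).1] at h1
    rcases (P ν).side ν (hPlen ν) hν t ht h1 with ⟨ξ₀, h2, h3⟩ | ⟨ξ₀, h2, h3⟩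
    · refine ⟨true, ξ₀, h2, fun ξ h4 h5 => ?_⟩
      obtain ⟨B, hB, h6, h7⟩ := h3 ξ h4 h5
      rw [(hag ν ξ h5.le).2] at hB
      rw [(hag ν ξ h5.le).1] at h7
      exact ⟨B, hB, (hsdt B).2 h6, h7⟩
    · refine ⟨false, ξ₀, h2, fun ξ h4 h5 => ?_⟩
      obtain ⟨B, hB, h6, h7⟩ := h3 ξ h4 h5
      rw [(hag ν ξ h5.le).2] at hB
      rw [(hag ν ξ h5.le).1] at h7
      exact ⟨B, hB, (hsdf B).2 h6, h7⟩
  obtain ⟨Tr, hTr⟩ : ∃ Tr : Bool × Om → Set Node, Tr = fun q => {s | s ∈ T ∧ ∀ ξ, q.2 < ξ →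
      dl ξ < s.ht → ∃ B ∈ N ξ, sd q.1 B ∧ s.res (dl ξ) ∈ B} := ⟨_, rfl⟩
  have hTrm : ∀ q s, s ∈ Tr q ↔ s ∈ T ∧ ∀ ξ, q.2 < ξ → dl ξ < s.ht →
      ∃ B ∈ N ξ, sd q.1 B ∧ s.res (dl ξ) ∈ B := by
    intro q s
    rw [hTr]
    exact Iff.rfl
  have hTrtree : ∀ q, IsTree (Tr q) := by
    intro q s hs ζ
    rw [hTrm] at hs ⊢
    refine ⟨hT.down s hs.1 ζ, fun ξ h1 h2 => ?_⟩
    rw [res_ht, lt_min_iff] at h2
    obtain ⟨B, hB, h3, h4⟩ := hs.2 ξ h1 h2.2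
    refine ⟨B, hB, h3, ?_⟩
    rw [res_res_of_le s h2.1.le]
    exact h4
  -- the key claim
  have hkey : ∀ q B, B ⊆ Tr q → Sub T B → ∃ A, sd q.1 A ∧ Sub T (A ∩ B) := by
    intro q B hB hsub
    have h1 : Stat {ν | IsLim ν ∧ q.2 < ν} := by
      intro D hD
      have h2 : Clb (D ∩ {δ | IsLim δ}) := hD.inter Clb.lim
      obtain ⟨β, hβ, h3⟩ := h2.1 q.2
      exact ⟨β, ⟨hβ.2, h3⟩, hβ.1⟩
    have h2 : ∀ ν, ∃ ξ, IsLim ν ∧ q.2 < ν → ξ < ν ∧ ∃ A ∈ N ξ, sd q.1 A ∧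
        ∃ s ∈ B, s ∈ A ∧ s.ht = dl ν := by
      intro ν
      by_cases hν : IsLim ν ∧ q.2 < ν
      · obtain ⟨ε, hε⟩ := Om_exists_gt (dl ν)
        obtain ⟨s, hs, hsε⟩ := hsub.2.2 ε
        obtain ⟨A, hA, h3, h4⟩ := ((hTrm q s).1 (hB hs)).2 ν hν.2 (hsε ▸ hε)
        obtain ⟨ξ, h5, h6⟩ := hncont ν hν.1 A hA
        refine ⟨ξ, fun _ => ⟨h5, A, h6, h3, s.res (dl ν), hsub.2.1 s hs _, h4, ?_⟩⟩
        exact res_ht_of_le (hsε ▸ hε.le)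
      · exact ⟨ν, fun h => absurd h hν⟩
    choose f hf using h2
    obtain ⟨ξ, hξ⟩ := h1.fodor (f := f) (fun ν hν => (hf ν hν).1)
    have : Countable (N ξ) := hcnt ξ
    obtain ⟨A, hA⟩ := hξ.pigeon (ι := N ξ) (R := fun ν A => sd q.1 A.1 ∧
      ∃ s ∈ B, s ∈ A.1 ∧ s.ht = dl ν) (by
        rintro ν ⟨hν, rfl⟩
        obtain ⟨-, A, hA, h3, h4⟩ := hf ν hν
        exact ⟨⟨A, hA⟩, h3, h4⟩)
    have hsdA : sd q.1 A.1 := by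
      obtain ⟨ν, ⟨-, h3, -⟩, -⟩ := hA _ Clb.univ
      exact h3
    refine ⟨A.1, hsdA, fun s hs => hsub.1 hs.2, fun s hs ζ =>
      ⟨hsdtree _ _ hsdA s hs.1 ζ, hsub.2.1 s hs.2 ζ⟩, fun δ => ?_⟩
    obtain ⟨ν, ⟨-, -, s, h3, h4, h5⟩, h6⟩ := hA.unbounded δ
    have h7 : δ ≤ s.ht := by
      rw [h5]
      exact h6.le.trans hdmono.le_apply
    exact ⟨s.res δ, ⟨hsdtree _ _ hsdA s h4 δ, hsub.2.1 s h3 δ⟩, res_ht_of_le h7⟩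
  obtain ⟨e⟩ := boolOm
  -- the club
  have hc1 : CM (fun M : Set Om => ∀ ξ, id ξ ∈ M → (∃ η, η = dl ξ) → ∃ η, id η ∈ M ∧ η = dl ξ) :=
    CM.skolem1 (X := Om) (i := id) (k := id) Function.injective_id (fun ξ η => η = dl ξ)
  have hc2 : CM (fun M : Set Om => ∀ b : Bool, ∀ ξ, id ξ ∈ M → (∃ η, η = e (b, ξ)) →
      ∃ η, id η ∈ M ∧ η = e (b, ξ)) :=
    CM.all (fun b => CM.skolem1 (X := Om) (i := id) (k := id) Function.injective_id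
      (fun ξ η => η = e (b, ξ)))
  obtain ⟨C₁, hC₁, hC₁'⟩ := hc1.clb
  obtain ⟨C₂, hC₂, hC₂'⟩ := hc2.clb
  refine ⟨fun η => Tr (e.symm η), (C₁ ∩ C₂) ∩ {δ | IsLim δ}, (hC₁.inter hC₂).inter Clb.lim,
    fun η => ⟨fun s hs => ((hTrm _ s).1 hs).1, hTrtree _, ?_⟩, ?_⟩
  · rcases hb : (e.symm η).1 with _ | _
    · left
      intro B hB hsub hFB
      obtain ⟨A, hA, h1⟩ := hkey _ B hB hsub
      rw [hb] at hA
      exact ((hsdf A).1 hA).2.2 _ Set.inter_subset_left h1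
        (hher B hFB _ Set.inter_subset_right h1)
    · right
      intro B hB hsub
      obtain ⟨A, hA, h1⟩ := hkey _ B hB hsub
      rw [hb] at hA
      exact ⟨A ∩ B, Set.inter_subset_right, h1,
        hher A ((hsdt A).1 hA) _ Set.inter_subset_left h1⟩
  · rintro δ ⟨⟨h1, h2⟩, h3⟩ t ht htδ
    have h4 : ∀ ξ, ξ < δ → dl ξ < δ := by
      intro ξ hξ
      obtain ⟨η, hη, rfl⟩ := hC₁' δ h1 ξ hξ ⟨_, rfl⟩
      exact hη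
    have h5 : dl δ = δ := by
      refine le_antisymm ?_ hdmono.le_apply
      by_contra h
      obtain ⟨ξ, h6, h7⟩ := hdcont δ h3 δ (not_le.1 h)
      exact lt_asymm h7 (h4 ξ h6)
    obtain ⟨b, ξ₀, h6, h7⟩ := hside δ h3 t ht (by rw [htδ, h5])
    refine ⟨e (b, ξ₀), ?_, ?_⟩
    · obtain ⟨η, hη, rfl⟩ := hC₂' δ h2 b ξ₀ h6 ⟨_, rfl⟩
      exact hη
    · change t ∈ Tr (e.symm (e (b, ξ₀)))
      rw [Equiv.symm_apply_apply, hTrm]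
      refine ⟨ht, fun ξ h8 h9 => h7 ξ h8 ?_⟩
      rw [htδ, ← h5] at h9
      exact hdmono.lt_iff_lt.1 h9

end Pool.Agent.MOO.H98
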